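import Pool.Agent.H24R2.DZ.Spec
import Pool.Agent.H986R2.DBN.Spec

set_option autoImplicit false

/-!
# A density theorem for the zeros of the de Bruijn-Newman family

Every task is one `Prop` below (`S_...`); a task proves it from earlier ones given as hypotheses.
`XX z = 8 ξ(1/2 + z)` (entire, even, real on the real axis; the critical line is the imaginary axis),
`XX z = HH z * ζ(1/2 + z)` for `Im z > 0`, `Om t = (log t)/2`, `XT τ` is the heat flow of `XX` at time `τ`,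
`ra T a = a / Om T`. The natural scale at time `τ` and height `T` is `a = 2 τ (Om T)^2`, with radius
`ra T a = 2 τ Om T`.
-/

namespace Pool.Agent.W186.SD

open Complex Filter Topology MeasureTheory Set
open Pool.Agent.H24R2.JP (XX HH Om)
open Pool.Agent.H986R2.DBN (XT JT Ht)
open Pool.Agent.H24R2.DZ (ra NN SC1 SC2 SSq SHar)

/-! ## A. Local theory -/

/-- The heat operator with Gaussian weight `exp (- g u^2)` (not normalised). -/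
noncomputable def UU (g : ℝ) (F : ℂ → ℂ) (z : ℂ) : ℂ :=
  ∫ u : ℝ, ((Real.exp (-(g * u ^ 2)) : ℝ) : ℂ) * F (z + (u : ℂ))

/-- The normalised local situation. -/
structure NG (δ a g η : ℝ) (F : ℂ → ℂ) : Prop where
  diff : Differentiable ℂ F
  symm : ∀ z : ℂ, F (-((starRingEnd ℂ) z)) = (starRingEnd ℂ) (F z)
  far : ∀ z : ℂ, δ / 10 ≤ z.re → ‖z‖ ≤ 20 → F z ≠ 0 ∧ ‖logDeriv F z - a‖ ≤ η * a
  near : ∀ z : ℂ, |z.re| ≤ δ / 10 → ‖z‖ ≤ 20 → ‖F z‖ ≤ ‖F 1‖ * Real.exp (-((1 - δ / 5) * a))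
  grow : ∀ z : ℂ, |z.im| ≤ 11 → 16 ≤ |z.re| →
    ‖F z‖ ≤ ‖F 1‖ * Real.exp (2 * a * |z.re| + g / 64 * (|z.re| - 16) ^ 2)

/-- The growth condition alone. -/
def Grow (a g : ℝ) (F : ℂ → ℂ) : Prop := ∀ z : ℂ, |z.im| ≤ 11 → 16 ≤ |z.re| →
  ‖F z‖ ≤ ‖F 1‖ * Real.exp (2 * a * |z.re| + g / 64 * (|z.re| - 16) ^ 2)

/-- Task NGN: from `NN` to `NG`. -/
def S_NGN : Prop := ∀ η' : ℝ, 0 < η' → ∃ η : ℝ, 0 < η ∧ ∀ (a g : ℝ) (F : ℂ → ℂ), 1 ≤ a → NN a η F →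
  Grow a g F → NG (1 / 2) a g η' F

/-- Task UD: `UU g F` is differentiable, differentiation under the integral. -/
def S_UD : Prop := ∀ (δ a g η : ℝ) (F : ℂ → ℂ), 1 ≤ a → a / 2 ≤ g → NG δ a g η F → ∀ z : ℂ, |z.im| < 11 →
  Integrable (fun u : ℝ => ((Real.exp (-(g * u ^ 2)) : ℝ) : ℂ) * F (z + (u : ℂ))) ∧
  Integrable (fun u : ℝ => ((2 * g * u * Real.exp (-(g * u ^ 2)) : ℝ) : ℂ) * F (z + (u : ℂ))) ∧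
  HasDerivAt (UU g F) (∫ u : ℝ, ((2 * g * u * Real.exp (-(g * u ^ 2)) : ℝ) : ℂ) * F (z + (u : ℂ))) z

/-- Task AW: away from the line, with a lower bound. -/
def S_AW : Prop := ∀ δ : ℝ, 0 < δ → δ ≤ 1 / 2 → ∃ η a0 : ℝ, 0 < η ∧ 1 ≤ a0 ∧
  ∀ (a g : ℝ) (F : ℂ → ℂ), a0 ≤ a → a / 2 ≤ g → NG δ a g η F →
  ∀ z : ℂ, δ ≤ z.re → z.re ≤ 6 → |z.im| ≤ 1 →
    Real.exp (-a) * ‖F 1‖ ≤ Real.sqrt g * ‖UU g F z‖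

/-- Task NL: near the line, at the natural scale. -/
def S_NL : Prop := ∃ η a0 : ℝ, 0 < η ∧ 1 ≤ a0 ∧ ∀ (a : ℝ) (F : ℂ → ℂ), a0 ≤ a → NG (1 / 2) a (a / 2) η F →
  ∀ z : ℂ, |z.re| ≤ 1 / 2 → |z.im| ≤ 1 → UU (a / 2) F z = 0 →
    z.re = 0 ∧ deriv (UU (a / 2) F) z ≠ 0

/-- Task CNT: the number of zeros. -/
def S_CNT : Prop := ∃ η C a0 : ℝ, 0 < η ∧ 0 < C ∧ 1 ≤ a0 ∧ ∀ (a g : ℝ) (F : ℂ → ℂ), a0 ≤ a → a / 2 ≤ g →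
  NG (1 / 2) a g η F → ∀ S : Finset ℂ, (∀ s ∈ S, ‖s‖ ≤ 6 ∧ UU g F s = 0) →
  ∑ s ∈ S, (analyticOrderNatAt (UU g F) s : ℝ) ≤ C * a

/-- Task REL: the heat flow in local coordinates. -/
def S_REL : Prop := ∀ (τ r t0 : ℝ) (z : ℂ), 0 < τ → 0 < r →
  XT τ (I * t0 + r * z) =
    ((r / (2 * Real.sqrt (Real.pi * τ)) : ℝ) : ℂ) * UU (r ^ 2 / (4 * τ)) (fun z => XX (I * t0 + r * z)) z

/-! ## B. Inputs -/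

/-- At height `t`, in the part `Re z ≥ ε0` of the disc of radius `R`, there are no zeros and the logarithmic
derivative is close to `Om t`. -/
def FarOK (R ε0 η t : ℝ) : Prop := ∀ z : ℂ, ε0 ≤ z.re → ‖z‖ ≤ R →
  XX (I * t + z) ≠ 0 ∧ ‖logDeriv XX (I * t + z) - (Om t : ℂ)‖ ≤ η * Om t

/-- Task TOP: this holds for all `t` but a set of measure `O (T^(1-c))` (Carlson). -/
def S_TOP : Prop := ∀ R ε0 η : ℝ, 1 ≤ R → 0 < ε0 → 0 < η → ∃ c C T0 : ℝ, 0 < c ∧ 0 < C ∧ 2 ≤ T0 ∧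
  ∀ T : ℝ, T0 ≤ T → volume {t : ℝ | T / 2 ≤ t ∧ t ≤ 3 * T ∧ ¬ FarOK R ε0 η t} ≤
    ENNReal.ofReal (C * T ^ (1 - c))

/-- Task NEAR: three lines. -/
def S_NEAR : Prop := ∀ R ε : ℝ, 1 ≤ R → 0 < ε → ∃ R' η T0 : ℝ, 1 ≤ R' ∧ 0 < η ∧ 2 ≤ T0 ∧
  ∀ t ε0 : ℝ, T0 ≤ t → ε ≤ ε0 → ε0 ≤ 1 / 2 → FarOK R' ε0 η t →
  ∀ z : ℂ, |z.re| ≤ ε0 → ‖z‖ ≤ R →
    ‖XX (I * t + z)‖ ≤ ‖XX (I * t + 1)‖ * Real.exp (-((1 - ε0 - ε) * Om t))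

/-- Task GR1: growth in units of size `r ≥ c`. -/
def S_GR1 : Prop := ∀ c X : ℝ, 0 < c → c ≤ X → ∃ R η T0 : ℝ, 1 ≤ R ∧ 0 < η ∧ 2 ≤ T0 ∧
  ∀ t r g : ℝ, T0 ≤ t → c ≤ r → r ≤ X → 2 * r ^ 2 ≤ g → FarOK R (min c 1) η t →
    Grow (r * Om t) g (fun z => XX (I * t + r * z))

/-- Task UNG: the local situation at the fixed scale `r`. -/
def S_UNG : Prop := ∀ δ c X : ℝ, 0 < δ → δ ≤ 1 / 2 → 0 < c → c ≤ X → ∀ η' : ℝ, 0 < η' →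
  ∃ R η T0 : ℝ, 1 ≤ R ∧ 0 < η ∧ 2 ≤ T0 ∧
  ∀ t r g : ℝ, T0 ≤ t → c ≤ r → r ≤ X → 2 * r ^ 2 ≤ g → FarOK R (δ * min c 1 / 10) η t →
    NG δ (r * Om t) g η' (fun z => XX (I * t + r * z))

/-- A zero of `XT τ` that is not simple or not on the line. -/
def badH (τ : ℝ) (s : ℂ) : Prop := XT τ s = 0 ∧ (s.re ≠ 0 ∨ deriv (XT τ) s = 0)

/-- Task BIGM: no bad zeros at height `t` if `2 τ Om t` is in a fixed range and `FarOK`. -/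
def S_BIGM : Prop := ∀ c X : ℝ, 0 < c → c ≤ X → ∃ R ε0 η T0 : ℝ, 1 ≤ R ∧ 0 < ε0 ∧ 0 < η ∧ 2 ≤ T0 ∧
  ∀ (t t' τ : ℝ) (s : ℂ), T0 ≤ t → |t - t'| ≤ 1 → 0 < τ → c ≤ 2 * τ * Om t → 2 * τ * Om t ≤ X →
    FarOK R ε0 η t' → s.im = t → ¬ badH τ s

/-- Task HUGE: no bad zeros for `2 τ Om t` large. -/
def S_HUGE : Prop := ∃ X0 T0 : ℝ, 1 ≤ X0 ∧ 2 ≤ T0 ∧ ∀ (t τ : ℝ) (s : ℂ), T0 ≤ t → 0 < τ → τ ≤ 1 / 8 →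
  X0 ≤ 2 * τ * Om t → s.im = t → ¬ badH τ s

/-- Task STR: all zeros are in the strip. -/
def S_STR : Prop := ∀ (τ : ℝ) (s : ℂ), 0 ≤ τ → XT τ s = 0 → |s.re| ≤ 1 / 2

/-- Task UNIT: zeros in unit windows. -/
def S_UNIT : Prop := ∀ X : ℝ, 0 < X → ∃ C T0 : ℝ, 0 < C ∧ 2 ≤ T0 ∧ ∀ t τ : ℝ, T0 ≤ t → 0 < τ →
  2 * τ * Om t ≤ X → ∀ S : Finset ℂ, (∀ s ∈ S, |s.im - t| ≤ 1 ∧ XT τ s = 0) →
  ∑ s ∈ S, (analyticOrderNatAt (XT τ) s : ℝ) ≤ C * Real.log t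

/-- Task LOWC: zeros up to a fixed height. -/
def S_LOWC : Prop := ∀ T1 : ℝ, ∃ C : ℝ, ∀ τ : ℝ, 0 ≤ τ → τ ≤ 1 / 8 → ∀ S : Finset ℂ,
  (∀ s ∈ S, |s.im| ≤ T1 ∧ XT τ s = 0) → ∑ s ∈ S, (analyticOrderNatAt (XT τ) s : ℝ) ≤ C

/-! ## C. Many scales -/

/-- Near the height `t` all scales `2^j a`, `j0 ≤ j ≤ J`, are good. -/
def LocH (η T a : ℝ) (j0 J : ℕ) (t : ℝ) : Prop := ∀ j : ℕ, j0 ≤ j → j ≤ J →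
  ∃ t' : ℝ, |t - t'| ≤ ra T (2 ^ j * a) / 100 ∧
    NN (2 ^ j * a) η (fun z => XX (I * t' + ra T (2 ^ j * a) * z))

/-- The top condition. -/
def TopOK (R η t : ℝ) : Prop := ∃ t' : ℝ, |t - t'| ≤ 1 / 100 ∧ FarOK R (1 / 400) η t'

/-- The standing assumptions: `a = 2 τ (Om T)^2`, radius at most `c0`, and `J` is the top scale. -/
structure Std (c0 T τ a : ℝ) (J : ℕ) : Prop where
  tau : 0 < τ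
  a_eq : a = 2 * τ * Om T ^ 2
  small : a ≤ c0 * Om T
  top : 2 ^ J * a ≤ Real.log T / 200
  top' : Real.log T / 200 < 2 ^ (J + 1) * a

/-- Task GROW: growth at all scales. -/
def S_GROW : Prop := ∃ R η c0 T0 : ℝ, 1 ≤ R ∧ 0 < η ∧ 0 < c0 ∧ 2 ≤ T0 ∧
  ∀ (T τ a t t' : ℝ) (J j : ℕ), T0 ≤ T → 1 ≤ a → Std c0 T τ a J → T / 2 ≤ t → t ≤ 3 * T → j ≤ J →
    LocH η T a j J t → TopOK R η t → |t - t'| ≤ ra T (2 ^ j * a) / 100 →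
    NN (2 ^ j * a) η (fun z => XX (I * t' + ra T (2 ^ j * a) * z)) →
    Grow (2 ^ j * a) (ra T (2 ^ j * a) ^ 2 / (4 * τ)) (fun z => XX (I * t' + ra T (2 ^ j * a) * z))

/-- Task PT: location of the zeros. -/
def S_PT : Prop := ∃ R η c0 a0 T0 : ℝ, 1 ≤ R ∧ 0 < η ∧ 0 < c0 ∧ 1 ≤ a0 ∧ 2 ≤ T0 ∧
  ∀ (T τ a : ℝ) (J j : ℕ) (s : ℂ), T0 ≤ T → a0 ≤ a → Std c0 T τ a J → T / 2 ≤ s.im → s.im ≤ 3 * T → j ≤ J →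
    LocH η T a j J s.im → TopOK R η s.im → XT τ s = 0 →
    |s.re| ≤ ra T (2 ^ j * a) / 2 ∧ (j = 0 → ¬ badH τ s)

/-- Task CNX: the number of zeros near a good point. -/
def S_CNX : Prop := ∃ R η c0 a0 C T0 : ℝ, 1 ≤ R ∧ 0 < η ∧ 0 < c0 ∧ 1 ≤ a0 ∧ 0 < C ∧ 2 ≤ T0 ∧
  ∀ (T τ a t : ℝ) (J j : ℕ), T0 ≤ T → a0 ≤ a → Std c0 T τ a J → T / 2 ≤ t → t ≤ 3 * T → j ≤ J →
    LocH η T a j J t → TopOK R η t → ∀ S : Finset ℂ,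
    (∀ s ∈ S, |s.re| ≤ ra T (2 ^ j * a) ∧ |s.im - t| ≤ ra T (2 ^ j * a) ∧ XT τ s = 0) →
    ∑ s ∈ S, (analyticOrderNatAt (XT τ) s : ℝ) ≤ C * (2 ^ j * a)

/-- Task COV: covering. -/
def S_COV : Prop := ∀ (S : Finset ℂ) (w : ℂ → ℝ) (B : Set ℝ) (δ m W : ℝ), 0 < δ → 0 ≤ m → 0 ≤ W →
  (∀ s ∈ S, 0 ≤ w s) → (∀ s ∈ S, Icc (s.im - δ) (s.im + δ) ⊆ B) → volume B ≤ ENNReal.ofReal m →
  (∀ s ∈ S, ∑ s' ∈ S with |s'.im - s.im| ≤ 2 * δ, w s' ≤ W) →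
  ∑ s ∈ S, w s ≤ W * (m / (2 * δ))

/-- Task MIDH: small radius. -/
def S_MIDH : Prop := ∃ c C c0 a0 T0 : ℝ, 0 < c ∧ 0 < C ∧ 0 < c0 ∧ 1 ≤ a0 ∧ 2 ≤ T0 ∧
  ∀ T τ : ℝ, T0 ≤ T → 0 < τ → a0 ≤ 2 * τ * Om T ^ 2 → 2 * τ * Om T ≤ c0 →
  ∀ S : Finset ℂ, (∀ s ∈ S, badH τ s ∧ T < s.im ∧ s.im ≤ 2 * T) →
  ∑ s ∈ S, (analyticOrderNatAt (XT τ) s : ℝ) ≤ C * T * Real.exp (-(c * (2 * τ * Om T ^ 2))) * Real.log T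

/-- Task DYH: all times, dyadic windows. -/
def S_DYH : Prop := ∃ c C T0 : ℝ, 0 < c ∧ 0 < C ∧ 2 ≤ T0 ∧ ∀ T τ : ℝ, T0 ≤ T → 0 < τ → τ ≤ 1 / 8 →
  ∀ S : Finset ℂ, (∀ s ∈ S, badH τ s ∧ T < s.im ∧ s.im ≤ 2 * T) →
  ∑ s ∈ S, (analyticOrderNatAt (XT τ) s : ℝ) ≤ C * T * Real.exp (-(c * τ * Real.log T ^ 2)) * Real.log T

/-- Task FINH: the final statement for `H_t`. -/
def S_FINH : Prop := ∃ c C : ℝ, 0 < c ∧ 0 < C ∧ ∀ T t : ℝ, 2 ≤ T → 0 < t → t ≤ 1 / 2 →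
  ∀ S : Finset ℂ, (∀ z ∈ S, Ht t z = 0 ∧ (z.im ≠ 0 ∨ deriv (Ht t) z = 0) ∧ T < z.re ∧ z.re ≤ 2 * T) →
  ∑ z ∈ S, (analyticOrderNatAt (Ht t) z : ℝ) ≤ C * T * Real.log T * Real.exp (-(c * t * Real.log T ^ 2))

end Pool.Agent.W186.SD
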