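import Pool.Agent.H24R2.DZ.Spec

set_option autoImplicit false

/-!
# The sum of `μ(m) m^(-1-(1+iτ)/L)` over `m` coprime to `k` (task `SInvZ`)
-/

namespace Pool.Agent.W186.SInvZ

open Complex Filter Topology Set
open Pool.Agent.H24R2.DZ
open scoped ArithmeticFunction.Moebius

noncomputable section

/-- `(s-1) ζ(s)` with the value `1` at `1`. -/
def gz : ℂ → ℂ := Function.update (fun s => (s - 1) * riemannZeta s) 1 1

lemma gz_cont : Continuous gz := by
  rw [continuous_iff_continuousAt]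
  intro s
  by_cases hs : s = 1
  · subst hs
    exact continuousAt_update_same.mpr riemannZeta_residue_one
  · rw [gz]
    refine (continuousAt_update_of_ne hs).mpr ?_
    exact (continuousAt_id.sub continuousAt_const).mul (differentiableAt_riemannZeta hs).continuousAt

lemma gz_ne {s : ℂ} (hs : 1 ≤ s.re) : gz s ≠ 0 := by
  by_cases h : s = 1
  · subst h; simp [gz]
  · rw [gz, Function.update_of_ne h]
    exact mul_ne_zero (sub_ne_zero.mpr h) (riemannZeta_ne_zero_of_one_le_re hs)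

lemma zeta_lower : ∃ c : ℝ, 0 < c ∧ ∀ s : ℂ, 1 < s.re → ‖s - 1‖ ≤ 1 →
    c ≤ ‖s - 1‖ * ‖riemannZeta s‖ := by
  have hK : IsCompact {s : ℂ | 1 ≤ s.re ∧ ‖s - 1‖ ≤ 1} := by
    have : {s : ℂ | 1 ≤ s.re ∧ ‖s - 1‖ ≤ 1} = {s : ℂ | 1 ≤ s.re} ∩ Metric.closedBall 1 1 := by
      ext s; simp [dist_eq_norm]
    rw [this]
    exact (isCompact_closedBall 1 1).inter_left (isClosed_le continuous_const continuous_re)
  obtain ⟨s0, hs0, hmin⟩ := hK.exists_isMinOn ⟨1, by simp⟩ (gz_cont.norm.continuousOn)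
  refine ⟨‖gz s0‖, norm_pos_iff.mpr (gz_ne hs0.1), ?_⟩
  intro s hs hs1
  have h : ‖gz s0‖ ≤ ‖gz s‖ := hmin (show s ∈ _ from ⟨hs.le, hs1⟩)
  have hne : s ≠ 1 := by rintro rfl; simp at hs
  rw [show gz s = (s - 1) * riemannZeta s by rw [gz, Function.update_of_ne hne], norm_mul] at h
  exact h

lemma sum_eq {k : ℕ} (s : ℂ) :
    (∑' m : ℕ, if m.Coprime k then (ArithmeticFunction.moebius m : ℂ) * (m : ℂ) ^ (-s) else 0) =
      LSeries ((fun n : ℕ => ((1 : DirichletCharacter ℂ k) n : ℂ)) * (fun n : ℕ => (μ n : ℂ))) s := by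
  rw [LSeries]
  refine tsum_congr fun m => ?_
  rcases eq_or_ne m 0 with rfl | hm
  · simp
  · rw [LSeries.term_of_ne_zero hm]
    by_cases hc : m.Coprime k
    · have h1 : (1 : DirichletCharacter ℂ k) (m : ZMod k) = 1 :=
        MulChar.one_apply ((ZMod.isUnit_iff_coprime m k).mpr hc)
      simp [hc, h1, cpow_neg, div_eq_mul_inv]
    · have h1 : (1 : DirichletCharacter ℂ k) (m : ZMod k) = 0 :=
        MulChar.map_nonunit _ (fun h => hc ((ZMod.isUnit_iff_coprime m k).mp h))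
      simp [hc, h1]

lemma prod_lower {k : ℕ} (hk : 1 ≤ k) {s : ℂ} (hs : 1 < s.re) :
    (Nat.totient k : ℝ) / k ≤ ‖∏ p ∈ k.primeFactors, (1 - (p : ℂ) ^ (-s))‖ := by
  have hk0 : (k : ℝ) ≠ 0 := by positivity
  have h1 : (Nat.totient k : ℝ) / k = ∏ p ∈ k.primeFactors, (1 - (p : ℝ)⁻¹) := by
    have h := Nat.totient_eq_mul_prod_factors k
    have h' : (Nat.totient k : ℝ) = k * ∏ p ∈ k.primeFactors, (1 - (p : ℝ)⁻¹) := by
      have h' := congrArg (fun q : ℚ => (q : ℝ)) h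
      push_cast at h'
      exact h'
    rw [h']; field_simp
  rw [h1, norm_prod]
  refine Finset.prod_le_prod (fun p hp => ?_) (fun p hp => ?_)
  · have : (1 : ℝ) ≤ p := by exact_mod_cast (Nat.prime_of_mem_primeFactors hp).one_le
    have := inv_le_one_of_one_le₀ this
    linarith
  · have hp1 : (1 : ℝ) < p := by exact_mod_cast (Nat.prime_of_mem_primeFactors hp).one_lt
    have hn : ‖(p : ℂ) ^ (-s)‖ ≤ (p : ℝ)⁻¹ := by
      rw [norm_natCast_cpow_of_pos (by exact_mod_cast (zero_lt_one.trans hp1)), neg_re,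
        ← Real.rpow_neg_one]
      exact Real.rpow_le_rpow_of_exponent_le hp1.le (by linarith)
    have := norm_sub_norm_le (1 : ℂ) ((p : ℂ) ^ (-s))
    rw [norm_one] at this
    linarith

/-- First case: the sum is `1/(∏ (1-p^-s) ζ(s))`. -/
lemma sum_mul {k : ℕ} (hk : 1 ≤ k) {s : ℂ} (hs : 1 < s.re) :
    ‖∑' m : ℕ, if m.Coprime k then (ArithmeticFunction.moebius m : ℂ) * (m : ℂ) ^ (-s) else 0‖ *
      (((Nat.totient k : ℝ) / k) * ‖riemannZeta s‖) ≤ 1 := by
  have : NeZero k := ⟨by omega⟩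
  have hne : s ≠ 1 := by rintro rfl; simp at hs
  have h := DirichletCharacter.LSeries.mul_mu_eq_one (1 : DirichletCharacter ℂ k) hs
  rw [← DirichletCharacter.LFunction_eq_LSeries _ hs] at h
  have h2 := DirichletCharacter.LFunctionTrivChar_eq_mul_riemannZeta (N := k) hne
  rw [DirichletCharacter.LFunctionTrivChar] at h2
  rw [h2, ← sum_eq] at h
  have h3 := congrArg norm h
  rw [norm_mul, norm_mul, norm_one] at h3
  have h4 := prod_lower hk hs
  calc _ ≤ ‖∑' m : ℕ, if m.Coprime k then (ArithmeticFunction.moebius m : ℂ) * (m : ℂ) ^ (-s) else 0‖ *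
      (‖∏ p ∈ k.primeFactors, (1 - (p : ℂ) ^ (-s))‖ * ‖riemannZeta s‖) := by gcongr
    _ = 1 := by rw [mul_comm]; exact h3

/-- Second case: the trivial bound. -/
lemma sum_triv {k : ℕ} {s : ℂ} (hs : 1 < s.re) :
    ‖∑' m : ℕ, if m.Coprime k then (ArithmeticFunction.moebius m : ℂ) * (m : ℂ) ^ (-s) else 0‖ ≤
      ‖riemannZeta (s.re : ℂ)‖ := by
  have hsum : Summable (fun n : ℕ => 1 / (n : ℝ) ^ s.re) := Real.summable_one_div_nat_rpow.mpr hs
  have hz : riemannZeta (s.re : ℂ) = ((∑' n : ℕ, 1 / (n : ℝ) ^ s.re : ℝ) : ℂ) := by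
    rw [zeta_eq_tsum_one_div_nat_cpow (by simpa using hs), ofReal_tsum]
    refine tsum_congr fun n => ?_
    rw [ofReal_div, ofReal_one, ofReal_cpow (Nat.cast_nonneg n), ofReal_natCast]
  have hnn : 0 ≤ ∑' n : ℕ, 1 / (n : ℝ) ^ s.re := tsum_nonneg fun n => by positivity
  rw [hz, norm_real, Real.norm_of_nonneg hnn]
  refine tsum_of_norm_bounded hsum.hasSum fun m => ?_
  rcases Nat.eq_zero_or_pos m with rfl | hm
  · simp only [Nat.cast_zero]
    have : (0 : ℝ) ≤ 1 / (0 : ℝ) ^ s.re := by positivity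
    simpa using this
  · by_cases hc : m.Coprime k
    · rw [if_pos hc, norm_mul, norm_natCast_cpow_of_pos hm, neg_re, Real.rpow_neg (Nat.cast_nonneg m),
        one_div]
      have h1 : ‖((ArithmeticFunction.moebius m : ℤ) : ℂ)‖ ≤ 1 := by
        rw [norm_intCast]
        exact_mod_cast ArithmeticFunction.abs_moebius_le_one
      exact mul_le_of_le_one_left (by positivity) h1
    · rw [if_neg hc, norm_zero]; positivity

lemma zeta_upper : ∃ C : ℝ, 0 ≤ C ∧ ∀ σ : ℝ, 1 < σ → σ ≤ 2 → (σ - 1) * ‖riemannZeta (σ : ℂ)‖ ≤ C := by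
  obtain ⟨C, hC⟩ := (isCompact_Icc (a := (1 : ℝ)) (b := 2)).exists_bound_of_continuousOn
    (f := fun x : ℝ => gz (x : ℂ)) (gz_cont.comp continuous_ofReal).continuousOn
  refine ⟨C, (norm_nonneg _).trans (hC 1 (by norm_num)), fun σ h1 h2 => ?_⟩
  have h := hC σ ⟨h1.le, h2⟩
  have hne : (σ : ℂ) ≠ 1 := by
    intro h; have : σ = 1 := by exact_mod_cast h
    linarith
  rw [show gz (σ : ℂ) = ((σ : ℂ) - 1) * riemannZeta σ by rw [gz, Function.update_of_ne hne],
    norm_mul] at h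
  have h3 : ‖(σ : ℂ) - 1‖ = σ - 1 := by
    rw [show (σ : ℂ) - 1 = ((σ - 1 : ℝ) : ℂ) by push_cast; rfl, norm_real,
      Real.norm_of_nonneg (by linarith)]
  rwa [h3] at h

theorem sinvz : SInvZ := by
  obtain ⟨c, hc, hlow⟩ := zeta_lower
  obtain ⟨C, hC, hup⟩ := zeta_upper
  refine ⟨1 / c + C + 1, by positivity, fun l τ k hL hk => ?_⟩
  have hL0 : 0 < l := by linarith
  set s : ℂ := 1 + (1 + I * τ) / l with hsdef
  have hre : s.re = 1 + 1 / l := by
    have : (1 + I * (τ : ℂ)) / (l : ℂ) = ((1 / l : ℝ) : ℂ) + ((τ / l : ℝ) : ℂ) * I := by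
      push_cast; ring
    rw [hsdef, this]; simp
  have hs : 1 < s.re := by rw [hre]; have : 0 < 1 / l := by positivity
                           linarith
  have hnorm : ‖s - 1‖ ≤ (1 + |τ|) / l := by
    have : s - 1 = (1 + I * τ) / l := by rw [hsdef]; ring
    rw [this, norm_div, norm_real, Real.norm_of_nonneg hL0.le]
    gcongr
    calc ‖1 + I * (τ : ℂ)‖ ≤ ‖(1 : ℂ)‖ + ‖I * (τ : ℂ)‖ := norm_add_le _ _
      _ = 1 + |τ| := by simp
  have hφ : 0 < (Nat.totient k : ℝ) := by exact_mod_cast Nat.totient_pos.mpr hk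
  have hk0 : (0 : ℝ) < k := by exact_mod_cast hk
  have hkφ : 1 ≤ (k : ℝ) / (Nat.totient k : ℝ) := by
    rw [one_le_div hφ]; exact_mod_cast Nat.totient_le k
  have ht : 1 ≤ 1 + |τ| := by linarith [abs_nonneg τ]
  set S := ‖∑' m : ℕ, if m.Coprime k then (ArithmeticFunction.moebius m : ℂ) * (m : ℂ) ^ (-s)
    else 0‖ with hS
  have hS0 : 0 ≤ S := norm_nonneg _
  rw [div_eq_mul_inv] 
  by_cases h1 : ‖s - 1‖ ≤ 1
  · have ha := hlow s hs h1
    have hb := sum_mul (k := k) hk hs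
    rw [← hS] at hb
    have hz0 : 0 < ‖riemannZeta s‖ := by
      by_contra hcon
      have : ‖riemannZeta s‖ = 0 := le_antisymm (not_lt.mp hcon) (norm_nonneg _)
      rw [this, mul_zero] at ha; linarith
    have hd : S ≤ (k / (Nat.totient k : ℝ)) * ((1 + |τ|) / l) / c := by
      rw [le_div_iff₀ hc]
      calc S * c ≤ S * (‖s - 1‖ * ‖riemannZeta s‖) := by gcongr
        _ = (S * (((Nat.totient k : ℝ) / k) * ‖riemannZeta s‖)) *
              ((k / (Nat.totient k : ℝ)) * ‖s - 1‖) := by field_simp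
        _ ≤ 1 * ((k / (Nat.totient k : ℝ)) * ‖s - 1‖) := by gcongr
        _ ≤ (k / (Nat.totient k : ℝ)) * ((1 + |τ|) / l) := by rw [one_mul]; gcongr
    calc S ≤ (k / (Nat.totient k : ℝ)) * ((1 + |τ|) / l) / c := hd
      _ = (1 / c) * (k / (Nat.totient k : ℝ)) * (1 + |τ|) * l⁻¹ := by field_simp
      _ ≤ (1 / c + C + 1) * (k / (Nat.totient k : ℝ)) * (1 + |τ|) ^ 2 * l⁻¹ := by
          have h5 : 1 / c ≤ 1 / c + C + 1 := by linarith
          have h6 : (1 + |τ|) ≤ (1 + |τ|) ^ 2 := by nlinarith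
          gcongr
  · push Not at h1
    have hLt : l ≤ 1 + |τ| := by
      have := h1.le.trans hnorm
      rw [le_div_iff₀ hL0, one_mul] at this
      exact this
    have ha := sum_triv (k := k) hs
    rw [← hS] at ha
    have hb := hup s.re hs (by rw [hre]; have : 1 / l ≤ 1 := by rw [div_le_one hL0]; exact hL
                               linarith)
    rw [hre, add_sub_cancel_left] at hb
    rw [hre] at ha
    have hb' : ‖riemannZeta ((1 + 1 / l : ℝ) : ℂ)‖ ≤ C * l := by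
      rw [one_div, inv_mul_eq_div, div_le_iff₀ hL0] at hb
      rw [one_div]; exact hb
    calc S ≤ C * l := ha.trans hb'
      _ = C * 1 * l ^ 2 * l⁻¹ := by field_simp
      _ ≤ (1 / c + C + 1) * (k / (Nat.totient k : ℝ)) * (1 + |τ|) ^ 2 * l⁻¹ := by
          have h5 : C ≤ 1 / c + C + 1 := by
            have : 0 < 1 / c := by positivity
            linarith
          gcongr

end

end Pool.Agent.W186.SInvZ
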